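import Pool.Agent.H32Tile.Main

set_option autoImplicit false

namespace Pool.Agent.Results.MP_73e00a_co.SameNeighbourhood

open Pool.Agent.H32Tile

/-- Disproof of Q1 (the case `r = 3`), for every number `r` of tiles: there are a closed
topological disk `C`, a tiling `F` of the plane by congruent copies of `C`, and `r` pairwise
distinct tiles of `F` whose neighbourhoods coincide. -/
theorem result : ∀ r : ℕ, ∃ (C : Set Plane) (F : Set (Set Plane)) (f : Fin r → Set Plane),
    IsBody C ∧ IsTiling C F ∧ Function.Injective f ∧ (∀ i, f i ∈ F) ∧
      ∀ i j, neighbourhood F (f i) = neighbourhood F (f j) :=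
  main

end Pool.Agent.Results.MP_73e00a_co.SameNeighbourhood
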